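import Pool.Agent.Run7.h1.Corr.Smash

set_option autoImplicit false
set_option linter.unusedSectionVars false

/-!
# Varieties with algebraic even cohomology and the generalized Bloch conjecture

Built on the library of helper570.
-/

open MvPolynomial Pool.Agent.Run7.h570.GAP

universe u

namespace Pool.Agent.Run7.h1.Corr

variable {R : PowerRings.{u}} {b : ℕ} {a : Fin b → R.A 1} {G : Matrix (Fin b) (Fin b) ℚ}

/-- if the diagonal is a combination of exterior products of the classes `a_i`, then all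
numerically trivial cycles are zero -/
lemma zero_of_tr (h0 : tr R a G = 0) (x : R.A 1) (hx : ∀ i, R.push (a i * x) = 0) : x = 0 := by
  have h1 : R.push (R.on 1 x * R.diag) = x := push_diag_one x
  have h2 : R.diag = tt R a G := sub_eq_zero.1 h0
  rw [h2, tt_eq, Finset.mul_sum, map_sum] at h1
  rw [← h1]
  refine Finset.sum_eq_zero fun k _ => ?_
  have h3 : R.push (dl R a G k * x) = algebraMap ℚ _ 0 := by
    rw [dl, Finset.sum_mul, map_sum, map_zero]
    refine Finset.sum_eq_zero fun j _ => ?_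
    rw [smul_mul_assoc, map_smul, hx, smul_zero]
  have h4 := push_on (a k) (dl R a G k * x) h3
  rw [zero_smul] at h4
  rw [← h4, map_mul (R.on _)]
  congr 1
  have h5 : R.pull Fin.castSucc (a k) = R.on (0 : Fin 2) (a k) := by
    rw [← on_zero (a k), pull_on, on_zero]
    rfl
  rw [h5]
  change _ = _ * (R.on 1 _ * R.on 1 _)
  ring

lemma haf_one {π : R.A 2} (hs : R.pull ![1, 0] π = π) : haf π 1 = 2 • π := by
  have h1 : ∀ τ : Equiv.Perm (Fin (1 + 1)),
      ∏ i : Fin 1, R.pull ![τ (Fin.castAdd 1 i), τ (Fin.natAdd 1 i)] π = π := by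
    intro τ
    rw [Fin.prod_univ_one]
    have h2 : (![τ (Fin.castAdd 1 (0 : Fin 1)), τ (Fin.natAdd 1 (0 : Fin 1))] : Fin 2 → Fin 2) = id ∨
        (![τ (Fin.castAdd 1 (0 : Fin 1)), τ (Fin.natAdd 1 (0 : Fin 1))] : Fin 2 → Fin 2) =
          ![1, 0] := by
      revert τ
      decide
    rcases h2 with h2 | h2
    · exact (congrArg (fun φ : Fin 2 → Fin 2 => R.pull φ π) h2).trans (R.pull_id π)
    · exact (congrArg (fun φ : Fin 2 → Fin 2 => R.pull φ π) h2).trans hs
  rw [haf, Finset.sum_congr rfl fun τ _ => h1 τ, Finset.sum_const, Finset.card_univ,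
    Fintype.card_perm, Fintype.card_fin]
  rfl

lemma haf_one_iff (h : PreTate R a G) : haf (tr R a G) 1 = 0 ↔ tr R a G = 0 := by
  rw [haf_one h.tr_symm]
  constructor
  · intro h1
    have h2 := congrArg (fun y : R.A 2 => (2 : ℚ)⁻¹ • y) h1
    simp only [smul_zero] at h2
    rw [← h2, ← Nat.cast_smul_eq_nsmul ℚ, smul_smul]
    norm_num
  · intro h1
    rw [h1, smul_zero]

end Pool.Agent.Run7.h1.Corr
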