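import Pool.Agent.Run7.h1.Corr.Smash

set_option autoImplicit false
set_option linter.unusedSectionVars false

/-!
# Self-dual projectors of trace zero

Built on the library of helper570.
-/

open MvPolynomial Pool.Agent.Run7.h570.GAP

universe u

namespace Pool.Agent.Run7.h1.Corr

variable {R : PowerRings.{u}} {Z : R.A 2}

/-- The products of pull-backs `Z_(i, j)` over the partitions of the factors of the power into pairs. -/
inductive PairProduct (R : PowerRings.{u}) (Z : R.A 2) : ∀ n : ℕ, R.A n → Prop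
  | one : PairProduct R Z 0 1
  | pair {n : ℕ} {z : R.A n} (hz : PairProduct R Z n z) :
      PairProduct R Z (n + 2) (R.pull (Fin.castSucc ∘ Fin.castSucc) z *
        R.pull ![(Fin.last n).castSucc, Fin.last (n + 1)] Z)
  | perm {n m : ℕ} {z : R.A n} (hz : PairProduct R Z n z) (e : Fin n ≃ Fin m) :
      PairProduct R Z m (R.pull e z)

lemma pairProduct_of {n : ℕ} {z : R.A n} {a : Fin 0 → R.A 1} (hz : Co.IsProduct R Z a n z) :
    PairProduct R Z n z := by
  induction hz with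
  | one => exact PairProduct.one
  | cls _ i _ => exact i.elim0
  | dia _ ih => exact PairProduct.pair ih
  | perm _ e ih => exact PairProduct.perm ih e

lemma cor_of_proj (h : IsProj R Z 0) :
    Co.Cor R Z (fun i : Fin 0 => i.elim0) (0 : Matrix (Fin 0) (Fin 0) ℚ) where
  symm := Matrix.isSymm_zero
  det := by simp
  pairing i := i.elim0
  self_adjoint := h.symm
  projector := h.idem
  fixed i := i.elim0
  trace := by
    rw [h.trace]
    simp

lemma tz_of_proj : Co.tz R Z (fun i : Fin 0 => i.elim0) (0 : Matrix (Fin 0) (Fin 0) ℚ) = Z := by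
  rw [Co.tz, tt]
  simp

/-- **The gap theorem for self-dual projectors of trace zero.** -/
theorem phantom_gap (h : IsProj R Z 0) :
    [Z = 0, SmashNil R Z, ∃ N, sym Z N = 0, ∃ N, SmashNil R (sym Z N)].TFAE ∧
    (Z ≠ 0 →
      (∀ n : ℕ, ∃ (N : ℕ) (v : Fin N → R.A (2 * n)), (∀ j, PairProduct R Z (2 * n) (v j)) ∧
        (∀ c : Fin N → ℚ, SmashNil R (∑ j, c j • v j) → c = 0) ∧
        16 ^ n ≤ (n + 15).choose 15 * N) ∧
      (∀ (k : ℕ) (c : Equiv.Perm (Fin k) → ℚ),
        SmashNil R (∑ σ, c σ • ∏ i, R.pull ![Fin.castAdd k i, Fin.natAdd k (σ i)] Z) →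
          SuperRelation c) ∧
      (∀ m < 12, ∀ c : Matching m → ℚ,
        SmashNil R (∑ τ, c τ • mprod Z τ) → c = 0)) := by
  obtain ⟨h1, -, h3⟩ := smash_gap (cor_of_proj h)
  rw [tz_of_proj] at h1 h3
  refine ⟨h1, fun hZ => ?_⟩
  obtain ⟨g1, g2, g3⟩ := h3 hZ
  refine ⟨fun n => ?_, g2, g3⟩
  obtain ⟨N, v, hv, hi, hb⟩ := g1 (2 * n)
  refine ⟨N, v, fun j => pairProduct_of (hv j), hi, ?_⟩
  have e1 : ((0 : ℕ) : ℤ) + 4 = 4 := by norm_num
  have e2 : ((0 : ℕ) : ℤ) - 4 = -4 := by norm_num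
  have e3 : 2 * n / 2 = n := by omega
  rw [e1, e2, e3, pow_mul, pow_mul] at hb
  norm_num at hb
  have h4 : (16 : ℤ) ^ n ≤ ((n + 15).choose 15 : ℕ) * N := by linarith
  exact_mod_cast h4

end Pool.Agent.Run7.h1.Corr
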