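import Pool.Agent.Run7.h1.Corr.Smash

set_option autoImplicit false
set_option linter.unusedSectionVars false

/-!
# Self-dual projectors of trace `- 2 n`

Built on the library of helper570.
-/

open MvPolynomial Pool.Agent.Run7.h570.GAP

universe u

namespace Pool.Agent.Run7.h1.Corr

variable {R : PowerRings.{u}} {Z : R.A 2} {n : ℕ}

lemma proj_cl {δ : ℚ} (h : IsProj R Z δ) : IsProj (quot R) (cl R 2 Z) δ where
  symm := by
    rw [cl_pull, h.symm]
  idem := by
    rw [cl_pull, cl_pull, ← map_mul, cl_push, h.idem]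
  trace := euler_cl h.trace

/-- **The gap theorem for self-dual projectors of trace `- 2 n`, modulo smash-nilpotent classes.** -/
theorem schur_gap (h : IsProj R Z (-2 * n)) :
    [haf Z (n + 1) = 0, SmashNil R (haf Z (n + 1)), sym Z (2 * n + 1) = 0,
      ∃ N, SmashNil R (sym Z N)].TFAE ∧
    (¬ SmashNil R (haf Z (n + 1)) →
      (∀ (k : ℕ) (c : Equiv.Perm (Fin k) → ℚ),
        SmashNil R (∑ σ, c σ • ∏ i, R.pull ![Fin.castAdd k i, Fin.natAdd k (σ i)] Z) →
          SuperRel (fun x : Fin (2 * n + 4) => decide (2 ≤ (x : ℕ))) c) ∧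
      (∀ m < 6 * (n + 2), ∀ c : Matching m → ℚ,
        SmashNil R (∑ τ, c τ • mprod Z τ) → c = 0)) := by
  have hq := proj_cl h
  have e1 : ∀ k, HafZero (cl R 2 Z) k ↔ SmashNil R (haf Z k) := by
    intro k
    rw [← cl_eq_zero, ← haf_cl]
    rfl
  have e2 : ∀ N, SymZero (cl R 2 Z) N ↔ SmashNil R (sym Z N) := by
    intro k
    rw [← cl_eq_zero, ← sym_cl]
    rfl
  refine ⟨?_, fun hn => ?_⟩
  · tfae_have 1 → 2 := fun h4 => by
      rw [h4]
      exact smashNil_zero
    tfae_have 2 → 4 := fun h4 => ⟨_, (e2 _).1 (sym_of_haf hq ((e1 _).2 h4))⟩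
    tfae_have 4 → 1 := by
      rintro ⟨N, hN⟩
      obtain ⟨N', h1⟩ := sym_of_smash h hN
      exact haf_of_sym (h := h) rfl h1
    tfae_have 1 → 3 := fun h4 => sym_of_haf h h4
    tfae_have 3 → 4 := fun h4 => ⟨_, by
      rw [h4]
      exact smashNil_zero⟩
    tfae_finish
  · have ht : ¬ Tight hq n := fun ht => hn ((e1 _).1 (tight_iff.1 ht))
    refine ⟨fun k c hc => ?_, fun m hm c hc => ?_⟩
    · refine superRel_of rfl ht ?_
      rw [← cl_eq_zero, map_sum] at hc
      rw [← hc]
      refine Finset.sum_congr rfl fun σ _ => ?_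
      rw [map_smul, map_prod]
      rfl
    · refine indep_cl ?_ c hc
      have := matchings_indep' rfl ht hm
      simp only [mprod_cl] at this
      exact this

end Pool.Agent.Run7.h1.Corr
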