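import Pool.Agent.Run7.h570.GAP.SmashGap

set_option autoImplicit false
set_option linter.unusedSectionVars false

/-!
# The gap theorem for self-adjoint projectors, modulo smash-nilpotent cycles

Built on the library of helper570.
-/

open MvPolynomial Pool.Agent.Run7.h570.GAP

universe u

namespace Pool.Agent.Run7.h1.Corr

variable {R : PowerRings.{u}} {b : ℕ} {Z : R.A 2} {a : Fin b → R.A 1} {G : Matrix (Fin b) (Fin b) ℚ}

lemma tz_cl : Co.tz (quot R) (cl R 2 Z) (fun i => cl R 1 (a i)) G = cl R 2 (Co.tz R Z a G) := by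
  rw [Co.tz, Co.tz, map_sub, tt_cl]

lemma toQuot (h : Co.Cor R Z a G) :
    Co.Cor (quot R) (cl R 2 Z) (fun i => cl R 1 (a i)) G where
  symm := h.symm
  det := h.det
  pairing := h.toPreTate.toQuot.pairing
  self_adjoint := by
    rw [cl_pull, h.self_adjoint]
  projector := by
    rw [cl_pull, cl_pull, ← map_mul, cl_push, h.projector]
  fixed i := by
    rw [cl_pull, ← map_mul, cl_push, h.fixed]
  trace := euler_cl h.trace

lemma isProduct_cl {m : ℕ} {v : (quot R).A m}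
    (hv : Co.IsProduct (quot R) (cl R 2 Z) (fun i => cl R 1 (a i)) m v) :
    ∃ z, Co.IsProduct R Z a m z ∧ cl R m z = v := by
  induction hv with
  | one => exact ⟨1, Co.IsProduct.one, map_one _⟩
  | cls _ i ih =>
    obtain ⟨z, hz, rfl⟩ := ih
    refine ⟨_, Co.IsProduct.cls hz i, ?_⟩
    rw [map_mul]
    rfl
  | dia _ ih =>
    obtain ⟨z, hz, rfl⟩ := ih
    refine ⟨_, Co.IsProduct.dia hz, ?_⟩
    rw [map_mul]
    rfl
  | perm _ e ih =>
    obtain ⟨z, hz, rfl⟩ := ih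
    exact ⟨_, Co.IsProduct.perm hz e, rfl⟩

lemma sym_one (π : R.A 2) : sym π 1 = π := by
  rw [sym, Fintype.sum_unique, Fin.prod_univ_one]
  have e : (![Fin.castAdd 1 (0 : Fin 1), Fin.natAdd 1 ((default : Equiv.Perm (Fin 1)) 0)] :
      Fin 2 → Fin 2) = id := by
    ext i
    fin_cases i <;> rfl
  rw [e]
  exact R.pull_id π

/-- a projector of trace zero is zero, if one of its symmetric powers is zero -/
lemma zero_of_sym {π : R.A 2} (hp : IsProj R π 0) {N : ℕ} (hN : SymZero π N) : π = 0 := by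
  have h1 : SymZero π 1 := sym_of_haf hp (haf_of_sym (h := hp) (n := 0) (by simp) hN)
  exact (sym_one π).symm.trans h1

theorem smash_tfae {π : R.A 2} (hp : IsProj R π 0) :
    [π = 0, SmashNil R π, ∃ N, sym π N = 0, ∃ N, SmashNil R (sym π N)].TFAE := by
  tfae_have 1 → 2 := fun h => by
    rw [h]
    exact smashNil_zero
  tfae_have 2 → 4 := fun h => ⟨1, by rwa [sym_one]⟩
  tfae_have 1 → 3 := fun h => ⟨1, by rwa [sym_one]⟩
  tfae_have 3 → 4 := fun ⟨N, h⟩ => ⟨N, by
    rw [h]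
    exact smashNil_zero⟩
  tfae_have 4 → 1 := fun ⟨N, h⟩ => by
    obtain ⟨N', h1⟩ := sym_of_smash hp h
    exact zero_of_sym hp h1
  tfae_finish

/-- **The gap theorem for self-adjoint projectors, modulo smash-nilpotent classes.** -/
theorem smash_gap (h : Co.Cor R Z a G) :
    [Co.tz R Z a G = 0, SmashNil R (Co.tz R Z a G), ∃ N, sym (Co.tz R Z a G) N = 0,
      ∃ N, SmashNil R (sym (Co.tz R Z a G) N)].TFAE ∧
    (Co.tz R Z a G = 0 → ∀ (n N : ℕ) (v : Fin N → R.A n), (∀ j, Co.IsProduct R Z a n (v j)) →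
      LinearIndependent ℚ v → N ≤ b ^ n) ∧
    (Co.tz R Z a G ≠ 0 →
      (∀ n : ℕ, ∃ (N : ℕ) (v : Fin N → R.A n), (∀ j, Co.IsProduct R Z a n (v j)) ∧
        (∀ c : Fin N → ℚ, SmashNil R (∑ j, c j • v j) → c = 0) ∧
        ((b : ℤ) + 4) ^ n + ((b : ℤ) - 4) ^ n ≤ 2 * ((n / 2 + 15).choose 15 : ℕ) * N) ∧
      (∀ (k : ℕ) (c : Equiv.Perm (Fin k) → ℚ),
        SmashNil R (∑ σ, c σ • ∏ i, R.pull ![Fin.castAdd k i, Fin.natAdd k (σ i)]
          (Co.tz R Z a G)) → SuperRelation c) ∧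
      (∀ m < 12, ∀ c : Matching m → ℚ,
        SmashNil R (∑ τ, c τ • mprod (Co.tz R Z a G) τ) → c = 0)) := by
  refine ⟨smash_tfae h.isProj, h.gap.1, fun ht => ?_⟩
  have h0 : Co.tz (quot R) (cl R 2 Z) (fun i => cl R 1 (a i)) G ≠ 0 := by
    rw [tz_cl]
    intro h1
    exact ht (((smash_tfae h.isProj).out 0 1).2 (cl_eq_zero.1 h1))
  obtain ⟨g1, g2, g3⟩ := (toQuot h).gap.2 h0
  rw [tz_cl] at g2 g3
  refine ⟨fun m => ?_, fun k c hc => ?_, fun m hm c hc => ?_⟩
  · obtain ⟨N, v, hv, hi, hb⟩ := g1 m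
    choose z hz hzv using fun j => isProduct_cl (hv j)
    refine ⟨N, z, hz, fun c hc => indep_cl ?_ c hc, hb⟩
    simp only [hzv]
    exact hi
  · refine g2 k c ?_
    rw [← cl_eq_zero, map_sum] at hc
    rw [← hc]
    refine Finset.sum_congr rfl fun σ _ => ?_
    rw [map_smul, map_prod]
    rfl
  · refine indep_cl ?_ c hc
    have := g3 m hm
    simp only [mprod_cl] at this
    exact this

end Pool.Agent.Run7.h1.Corr
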