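import Pool.Agent.Run7.h1.Corr.Schur
import Pool.Agent.Run7.h1.Corr.Phantom
import Pool.Agent.Run7.h1.Corr.Bloch

set_option autoImplicit false

/-!
# Self-dual projectors of trace `- 2 n`: summary

Built on the library of helper570.
-/

open Pool.Agent.Run7.h570.GAP

universe u

namespace Pool.Agent.Run7.h1.Corr

variable {R : PowerRings.{u}} {Z : R.A 2} {n : ℕ}

lemma haf_one_zero {π : R.A 2} (hs : R.pull ![1, 0] π = π) : haf π 1 = 0 ↔ π = 0 := by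
  rw [haf_one hs]
  constructor
  · intro h1
    have h2 := congrArg (fun y : R.A 2 => (2 : ℚ)⁻¹ • y) h1
    simp only [smul_zero] at h2
    rw [← h2, ← Nat.cast_smul_eq_nsmul ℚ, smul_smul]
    norm_num
  · intro h1
    rw [h1, smul_zero]

theorem summand (h : IsProj R Z (-2 * n)) :
    [haf Z (n + 1) = 0, SmashNil R (haf Z (n + 1)), sym Z (2 * n + 1) = 0,
      ∃ N, SmashNil R (sym Z N)].TFAE ∧
    (¬ SmashNil R (haf Z (n + 1)) →
      (∀ (k : ℕ) (c : Equiv.Perm (Fin k) → ℚ),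
        SmashNil R (∑ σ, c σ • ∏ i, R.pull ![Fin.castAdd k i, Fin.natAdd k (σ i)] Z) →
          SuperRel (fun x : Fin (2 * n + 4) => decide (2 ≤ (x : ℕ))) c) ∧
      (∀ m < 6 * (n + 2), ∀ c : Matching m → ℚ,
        SmashNil R (∑ τ, c τ • mprod Z τ) → c = 0)) ∧
    (n = 0 → (haf Z 1 = 0 ↔ Z = 0) ∧
      (Z ≠ 0 → ∀ m : ℕ, ∃ (N : ℕ) (v : Fin N → R.A (2 * m)), (∀ j, PairProduct R Z (2 * m) (v j)) ∧
        (∀ c : Fin N → ℚ, SmashNil R (∑ j, c j • v j) → c = 0) ∧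
        16 ^ m ≤ (m + 15).choose 15 * N)) := by
  obtain ⟨h1, h2⟩ := schur_gap h
  refine ⟨h1, h2, fun hn => ⟨haf_one_zero h.symm, fun hZ => ?_⟩⟩
  subst hn
  have h3 : IsProj R Z 0 := by
    have h4 := h
    rw [show (-2 : ℚ) * ((0 : ℕ) : ℚ) = 0 by simp] at h4
    exact h4
  exact ((phantom_gap h3).2 hZ).1

end Pool.Agent.Run7.h1.Corr
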